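import Mathlib

namespace Pool.Agent.Results.MP_14d1e0_nt.Empty

open Matrix

def IsLiouvilleMatrix {n : ℕ} (M : Matrix (Fin n) (Fin n) ℝ) : Prop :=
  (∀ x y : Fin n → ℤ, ¬ (x = 0 ∧ y = 0) → M *ᵥ (fun i => (y i : ℝ)) ≠ fun i => (x i : ℝ)) ∧
  ∀ N : ℝ, 0 < N → ∃ x y : Fin n → ℤ, 1 < ‖fun i => (y i : ℝ)‖ ∧
    ‖M *ᵥ (fun i => (y i : ℝ)) - fun i => (x i : ℝ)‖ < ‖fun i => (y i : ℝ)‖ ^ (-N)

lemma key (u m : ℤ) (hu : 0 < u) (h : |√2 * u - m| ≤ 1) : 1 ≤ 4 * u * |√2 * u - m| := by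
  have hs : √2 * √2 = 2 := Real.mul_self_sqrt (by norm_num)
  have h0 : 2 * u ^ 2 - m ^ 2 ≠ 0 := by
    intro h0
    have h1 : (2 * u ^ 2 - m ^ 2 : ℝ) = 0 := by exact_mod_cast h0
    have hu' : (u : ℝ) ≠ 0 := by positivity
    apply irrational_sqrt_two
    refine ⟨|(m : ℚ) / u|, ?_⟩
    push_cast
    rw [← Real.sqrt_sq_eq_abs]
    congr 1
    field_simp
    linarith
  have h1 : (1 : ℝ) ≤ |(2 * u ^ 2 - m ^ 2 : ℝ)| := by
    have := Int.one_le_abs h0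
    exact_mod_cast this
  have h2 : (2 * u ^ 2 - m ^ 2 : ℝ) = (√2 * u + m) * (√2 * u - m) := by
    linear_combination (-(u : ℝ) ^ 2) * hs
  rw [h2, abs_mul] at h1
  have hu1 : (1 : ℝ) ≤ u := by exact_mod_cast hu
  have h3 : √2 ≤ 3 / 2 := by nlinarith [Real.sqrt_nonneg 2]
  have h4 : |√2 * u + m| ≤ 4 * u := by
    rw [abs_le] at h ⊢
    constructor <;> nlinarith [Real.sqrt_nonneg 2]
  exact h1.trans (mul_le_mul_of_nonneg_right h4 (abs_nonneg _))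

theorem result : ∃ A : Matrix (Fin 2) (Fin 2) ℝ, ∀ l : ℝ, ¬ IsLiouvilleMatrix (A - l • 1) := by
  refine ⟨!![0, √2; -√2, 0], fun l h => ?_⟩
  obtain ⟨x, y, h1, h2⟩ := h.2 8 (by norm_num)
  set Y := ‖fun i => (y i : ℝ)‖ with hY
  have hy : ∀ i, |(y i : ℝ)| ≤ Y := fun i => norm_le_pi_norm (fun i => (y i : ℝ)) i
  have hY2 : 2 ≤ Y := by
    by_contra hc
    have : Y ≤ 1 := by
      rw [hY, pi_norm_le_iff_of_nonneg (by norm_num)]
      intro i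
      have h3 : |(y i : ℝ)| < 2 := (hy i).trans_lt (not_le.1 hc)
      have h4 : |y i| < 2 := by exact_mod_cast h3
      have h5 : |y i| ≤ 1 := by omega
      rw [Real.norm_eq_abs]
      exact_mod_cast h5
    linarith
  have hu : 0 < y 0 ^ 2 + y 1 ^ 2 := by
    by_contra hc
    have a0 : y 0 = 0 := by nlinarith [sq_nonneg (y 0), sq_nonneg (y 1)]
    have a1 : y 1 = 0 := by nlinarith [sq_nonneg (y 0), sq_nonneg (y 1)]
    have : Y ≤ 1 := by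
      rw [hY, pi_norm_le_iff_of_nonneg (by norm_num)]
      intro i
      fin_cases i <;> simp [a0, a1]
    linarith
  have hp : Y ^ (-8 : ℝ) = (Y ^ 8)⁻¹ := by
    rw [Real.rpow_neg (by linarith)]
    norm_cast
  rw [hp] at h2
  set e := (Y ^ 8)⁻¹ with he
  have d0 := (norm_le_pi_norm _ 0).trans_lt h2
  have d1 := (norm_le_pi_norm _ 1).trans_lt h2
  simp at d0 d1
  have hb : |√2 * ((y 0 ^ 2 + y 1 ^ 2 : ℤ) : ℝ) - ((x 0 * y 1 - x 1 * y 0 : ℤ) : ℝ)| ≤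
      2 * Y * e := by
    have : √2 * ((y 0 ^ 2 + y 1 ^ 2 : ℤ) : ℝ) - ((x 0 * y 1 - x 1 * y 0 : ℤ) : ℝ) =
        (-(l * y 0) + √2 * y 1 - x 0) * y 1 - (-(√2 * y 0) + -(l * y 1) - x 1) * y 0 := by
      push_cast; ring
    rw [this]
    refine (abs_sub _ _).trans ?_
    rw [abs_mul, abs_mul]
    have e0 : 0 ≤ e := by positivity
    have := mul_le_mul d0.le (hy 1) (abs_nonneg _) e0
    have := mul_le_mul d1.le (hy 0) (abs_nonneg _) e0
    linarith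
  have hYe : Y ^ 8 * e = 1 := mul_inv_cancel₀ (by positivity)
  have e0 : 0 < e := by positivity
  have h32 : 32 ≤ Y ^ 5 := by
    have := pow_le_pow_left₀ (by norm_num) hY2 5
    linarith
  have h17 : 32 * (Y ^ 3 * e) ≤ 1 := by
    rw [← hYe, show Y ^ 8 * e = Y ^ 5 * (Y ^ 3 * e) by ring]
    exact mul_le_mul_of_nonneg_right h32 (by positivity)
  have h18 : 1 * (Y * e) ≤ Y ^ 2 * (Y * e) :=
    mul_le_mul_of_nonneg_right (by nlinarith) (by positivity)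
  have h19 := key _ _ hu (hb.trans (by nlinarith))
  have h20 : ((y 0 ^ 2 + y 1 ^ 2 : ℤ) : ℝ) ≤ 2 * Y ^ 2 := by
    have a0 := pow_le_pow_left₀ (abs_nonneg _) (hy 0) 2
    have a1 := pow_le_pow_left₀ (abs_nonneg _) (hy 1) 2
    rw [sq_abs] at a0 a1
    push_cast; linarith
  have h21 := mul_le_mul h20 hb (abs_nonneg _) (by positivity)
  nlinarith

end Pool.Agent.Results.MP_14d1e0_nt.Empty
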